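import Mathlib

/-!
Tools for first countable almost discretely Lindelof Hausdorff spaces.
-/

universe u

namespace MP_fe99c3_gt.TD

open Set Filter Topology Cardinal

/-- closing off under at most continuum many operations of countable arity -/
theorem closing_off {X : Type u} {ι : Type} (hι : #ι ≤ 𝔠) (F : (ℕ → X) → ι → X) (x₀ : X) :
    ∃ Y : Set X, x₀ ∈ Y ∧ #Y ≤ 𝔠 ∧ ∀ s : ℕ → X, (∀ n, s n ∈ Y) → ∀ r, F s r ∈ Y := by
  classical
  let β : Option ι → Type := fun a => match a with
    | none => Empty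
    | some _ => ℕ
  let g : (Σ a : Option ι, β a → X) → X := fun p => match p with
    | ⟨none, _⟩ => x₀
    | ⟨some r, f⟩ => F f r
  let ev : WType β → X := WType.elim X g
  have hW : #(WType β) ≤ 𝔠 := by
    refine WType.cardinalMk_le_of_le ?_
    have h1 : ∀ a : Option ι, (𝔠 : Cardinal.{0}) ^ #(β a) ≤ 𝔠 := by
      intro a
      cases a with
      | none =>
        show (𝔠 : Cardinal.{0}) ^ #Empty ≤ 𝔠
        simp only [Cardinal.mk_eq_zero, power_zero]
        exact le_trans (le_of_lt one_lt_aleph0) aleph0_le_continuum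
      | some r =>
        show (𝔠 : Cardinal.{0}) ^ #ℕ ≤ 𝔠
        rw [mk_nat, continuum_power_aleph0]
    calc (Cardinal.sum fun a : Option ι => (𝔠 : Cardinal.{0}) ^ #(β a))
        ≤ Cardinal.sum fun a : Option ι => (𝔠 : Cardinal.{0}) := Cardinal.sum_le_sum _ _ h1
      _ = #(Option ι) * 𝔠 := by simp
      _ ≤ 𝔠 * 𝔠 := by
        refine mul_le_mul' ?_ le_rfl
        rw [mk_option]
        calc #ι + 1 ≤ 𝔠 + 𝔠 := add_le_add hι (le_trans (le_of_lt one_lt_aleph0) aleph0_le_continuum)
          _ = 𝔠 := continuum_add_self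
      _ = 𝔠 := continuum_mul_self
  refine ⟨range ev, ⟨WType.mk none Empty.elim, rfl⟩, ?_, ?_⟩
  · have h2 := mk_range_le_lift (f := ev)
    have h3 : Cardinal.lift.{u, 0} #(WType β) ≤ 𝔠 := by
      rw [← lift_continuum.{u, 0}]
      exact lift_le.mpr hW
    have h4 := h2.trans h3
    rwa [lift_uzero] at h4
  · intro s hs r
    choose t ht using hs
    refine ⟨WType.mk (some r) t, ?_⟩
    show F (fun n => ev (t n)) r = F s r
    congr 1
    funext n
    exact ht n

/-- recursion over a well order through the set of earlier values -/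
theorem exists_rec {I : Type*} [LinearOrder I] [WellFoundedLT I] {X : Type*} (G : Set X → X) :
    ∃ y : I → X, ∀ a, y a = G (y '' Iio a) := by
  let y : I → X := (wellFounded_lt (α := I)).fix
    (fun a ih => G {z | ∃ b, ∃ h : b < a, ih b h = z})
  refine ⟨y, fun a => ?_⟩
  have h := (wellFounded_lt (α := I)).fix_eq
    (fun a (ih : ∀ b, b < a → X) => G {z | ∃ b, ∃ h : b < a, ih b h = z}) a
  show (wellFounded_lt (α := I)).fix _ a = _
  rw [h]
  congr 1
  ext z
  constructor
  · rintro ⟨b, hb, rfl⟩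
    exact ⟨b, hb, rfl⟩
  · rintro ⟨b, hb, rfl⟩
    exact ⟨b, hb, rfl⟩

/-- a well order in which all initial segments have size at most the continuum but which is
itself larger -/
theorem exists_succ_cont : ∃ (I : Type) (_ : LinearOrder I) (_ : WellFoundedLT I),
    (∀ a : I, #(Iio a) ≤ 𝔠) ∧ 𝔠 < #I := by
  refine ⟨(Order.succ (𝔠 : Cardinal.{0})).ord.ToType, inferInstance, inferInstance, ?_, ?_⟩
  · intro a
    refine Order.lt_succ_iff.mp ?_
    have h := Cardinal.mk_Iio_lt a (by simp)
    rwa [mk_ord_toType] at h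
  · rw [mk_ord_toType]
    exact Order.lt_succ _

/-- number of sequences in a set of size at most the continuum -/
theorem mk_seq_le {X : Type u} {Y : Set X} (hY : #Y ≤ 𝔠) : #(ℕ → Y) ≤ 𝔠 := by
  rw [mk_arrow]
  simp only [mk_nat, lift_aleph0, lift_uzero]
  calc #Y ^ ℵ₀ ≤ 𝔠 ^ ℵ₀ := power_le_power_right hY
    _ = 𝔠 := continuum_power_aleph0

/-- closures of sets of size at most the continuum -/
theorem mk_closure_le {X : Type u} [TopologicalSpace X] [T2Space X] [FirstCountableTopology X]
    {Y : Set X} (hY : #Y ≤ 𝔠) : #(closure Y) ≤ 𝔠 := by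
  classical
  by_cases hne : Nonempty X
  · let l : (ℕ → Y) → X := fun s =>
      if h : ∃ p, Tendsto (fun n => (s n : X)) atTop (𝓝 p) then h.choose else Classical.arbitrary X
    have hsub : closure Y ⊆ range l := by
      intro p hp
      obtain ⟨x, hx, hlim⟩ := mem_closure_iff_seq_limit.1 hp
      refine ⟨fun n => ⟨x n, hx n⟩, ?_⟩
      have h : ∃ p, Tendsto (fun n => (((fun n => ⟨x n, hx n⟩ : ℕ → Y) n : Y) : X)) atTop (𝓝 p) :=
        ⟨p, hlim⟩
      show (if h : ∃ p, Tendsto (fun n => (((fun n => ⟨x n, hx n⟩ : ℕ → Y) n : Y) : X)) atTop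
        (𝓝 p) then h.choose else Classical.arbitrary X) = p
      rw [dif_pos h]
      exact tendsto_nhds_unique h.choose_spec hlim
    exact (mk_le_mk_of_subset hsub).trans (mk_range_le.trans (mk_seq_le hY))
  · have : IsEmpty X := not_nonempty_iff.mp hne
    have h0 : #(closure Y) = 0 := by
      rw [Cardinal.mk_eq_zero_iff]
      infer_instance
    rw [h0]
    exact zero_le

end MP_fe99c3_gt.TD
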