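import Mathlib

/-!
Cardinal arithmetic, closing off under operations of small arity, and recursion.
-/

universe u

namespace MP_fe99c3_gt.TD

open Set Filter Topology Cardinal

/-- powers of the continuum with small exponent -/
theorem cont_pow_le {c : Cardinal.{u}} (hc : (2 : Cardinal.{u}) ^ c ≤ 𝔠) : 𝔠 ^ c ≤ 𝔠 := by
  calc (𝔠 : Cardinal.{u}) ^ c = (2 ^ ℵ₀) ^ c := by rw [two_power_aleph0]
    _ = (2 ^ c) ^ ℵ₀ := by rw [← power_mul, ← power_mul, mul_comm]
    _ ≤ 𝔠 ^ ℵ₀ := power_le_power_right hc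
    _ = 𝔠 := continuum_power_aleph0

/-- closing off under at most `lam` operations of small arity -/
theorem closing_off' {X : Type u} {ι : Type} (lam : Cardinal.{0}) (hc : 𝔠 ≤ lam) (A : ι → Type)
    (hι : #ι ≤ lam) (hA : ∀ i, lam ^ #(A i) ≤ lam) (F : ∀ i, (A i → X) → X) (x₀ : X) :
    ∃ Y : Set X, x₀ ∈ Y ∧ #Y ≤ lift.{u} lam ∧
      ∀ i (s : A i → X), (∀ n, s n ∈ Y) → F i s ∈ Y := by
  classical
  have hlam : ℵ₀ ≤ lam := aleph0_le_continuum.trans hc
  let β : Option ι → Type := fun a => match a with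
    | none => Empty
    | some i => A i
  let g : (Σ a : Option ι, β a → X) → X := fun p => match p with
    | ⟨none, _⟩ => x₀
    | ⟨some r, f⟩ => F r f
  let ev : WType β → X := WType.elim X g
  have hW : #(WType β) ≤ lam := by
    refine WType.cardinalMk_le_of_le ?_
    have h1 : ∀ a : Option ι, lam ^ #(β a) ≤ lam := by
      intro a
      cases a with
      | none =>
        show lam ^ #Empty ≤ lam
        simp only [Cardinal.mk_eq_zero, power_zero]
        exact le_trans (le_of_lt one_lt_aleph0) hlam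
      | some r => exact hA r
    calc (Cardinal.sum fun a : Option ι => lam ^ #(β a))
        ≤ Cardinal.sum fun a : Option ι => lam := Cardinal.sum_le_sum _ _ h1
      _ = #(Option ι) * lam := by simp
      _ ≤ lam * lam := by
        refine mul_le_mul' ?_ le_rfl
        rw [mk_option]
        calc #ι + 1 ≤ lam + lam := add_le_add hι (le_trans (le_of_lt one_lt_aleph0) hlam)
          _ = lam := add_eq_self hlam
      _ = lam := mul_eq_self hlam
  refine ⟨range ev, ⟨WType.mk none Empty.elim, rfl⟩, ?_, ?_⟩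
  · have h2 := mk_range_le_lift (f := ev)
    have h3 : Cardinal.lift.{u, 0} #(WType β) ≤ lift.{u} lam := lift_le.mpr hW
    have h4 := h2.trans h3
    rwa [lift_uzero] at h4
  · intro i s hs
    choose t ht using hs
    refine ⟨WType.mk (some i) t, ?_⟩
    show F i (fun n => ev (t n)) = F i s
    congr 1
    funext n
    exact ht n

/-- recursion over a well order -/
theorem exists_rec' {I : Type*} [LinearOrder I] [WellFoundedLT I] {X : Type*}
    (G : ∀ a : I, (Iio a → X) → X) : ∃ y : I → X, ∀ a, y a = G a (fun b => y b) := by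
  let y : I → X := (wellFounded_lt (α := I)).fix
    (fun a ih => G a (fun b => ih b.1 b.2))
  refine ⟨y, fun a => ?_⟩
  have h := (wellFounded_lt (α := I)).fix_eq
    (fun a (ih : ∀ b, b < a → X) => G a (fun b : Iio a => ih b.1 b.2)) a
  exact h

/-- the least cardinal with power larger than the continuum, as a well ordered type -/
theorem exists_kappa : ∃ (I : Type) (_ : LinearOrder I) (_ : WellFoundedLT I),
    Nonempty I ∧ #I ≤ 𝔠 ∧ (∀ a : I, (2 : Cardinal.{0}) ^ #(Iio a) ≤ 𝔠) ∧
    (∀ f : ℕ → I, ∃ a, ∀ n, f n < a) ∧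
    ∀ c : Cardinal.{0}, (∀ d < c, (2 : Cardinal.{0}) ^ d ≤ 𝔠) → c ≤ #I := by
  let K : Set Cardinal.{0} := {c | 𝔠 < 2 ^ c}
  have hKne : K.Nonempty := ⟨𝔠, cantor _⟩
  let κ : Cardinal.{0} := sInf K
  have hκ : 𝔠 < 2 ^ κ := csInf_mem hKne
  have hlt : ∀ d < κ, (2 : Cardinal.{0}) ^ d ≤ 𝔠 := fun d hd =>
    not_lt.mp (fun h => notMem_of_lt_csInf' hd h)
  have hmk : #(κ.ord.ToType) = κ := mk_ord_toType κ
  have hseg : ∀ a : κ.ord.ToType, (2 : Cardinal.{0}) ^ #(Iio a) ≤ 𝔠 := by
    intro a
    refine hlt _ ?_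
    have h := Cardinal.mk_Iio_lt a (by simp)
    rwa [hmk] at h
  refine ⟨κ.ord.ToType, inferInstance, inferInstance, ?_, ?_, hseg, ?_, ?_⟩
  · rw [← mk_ne_zero_iff, hmk]
    intro h0
    rw [h0, power_zero] at hκ
    exact absurd hκ (not_lt.mpr (le_trans (le_of_lt one_lt_aleph0) aleph0_le_continuum))
  · rw [hmk]
    exact csInf_le' (cantor 𝔠)
  · intro f
    by_contra hcon
    push Not at hcon
    -- subsets are coded by their traces on the segments
    have hIic : ∀ a : κ.ord.ToType, #(Set (Iic a)) ≤ 𝔠 := by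
      intro a
      rw [mk_set, ← Iio_insert]
      refine le_trans (power_le_power_left two_ne_zero (mk_insert_le)) ?_
      rw [power_add, power_one]
      calc (2 : Cardinal.{0}) ^ #(Iio a) * 2 ≤ 𝔠 * 𝔠 :=
            mul_le_mul' (hseg a)
              (le_trans (le_of_lt (natCast_lt_aleph0 (n := 2))) aleph0_le_continuum)
        _ = 𝔠 := continuum_mul_self
    let code : Set κ.ord.ToType → (∀ n, Set (Iic (f n))) := fun T n => {x | (x : κ.ord.ToType) ∈ T}
    have hinj : Function.Injective code := by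
      intro T T' h
      ext a
      obtain ⟨n, hn⟩ := hcon a
      have h2 := congrFun h n
      have h3 : (⟨a, hn⟩ : Iic (f n)) ∈ code T n ↔ (⟨a, hn⟩ : Iic (f n)) ∈ code T' n := by rw [h2]
      exact h3
    have h4 := mk_le_of_injective hinj
    rw [mk_set, hmk, mk_pi] at h4
    have h5 : Cardinal.prod (fun n => #(Set (Iic (f n)))) ≤ 𝔠 := by
      refine le_trans (prod_le_prod _ (fun _ => 𝔠) (fun n => hIic (f n))) ?_
      simp [continuum_power_aleph0]
    exact absurd (h4.trans h5) (not_le.mpr hκ)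
  · intro c hc
    rw [hmk]
    by_contra hlt2
    exact absurd (hc κ (not_le.mp hlt2)) (not_le.mpr hκ)

/-- a family of at most kappa members is the range of a map from a type of size kappa -/
theorem exists_surj {I : Type} [Nonempty I]
    (hI : ∀ c : Cardinal.{0}, (∀ d < c, (2 : Cardinal.{0}) ^ d ≤ 𝔠) → c ≤ #I)
    {T : Type u} [Nonempty T] (hT : ∀ d < #T, (2 : Cardinal.{u}) ^ d ≤ 𝔠) :
    ∃ g : I → T, Function.Surjective g := by
  have h1 : #T ≤ 𝔠 := by
    by_contra h
    exact absurd (hT 𝔠 (not_le.mp h)) (not_le.mpr (cantor 𝔠))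
  obtain ⟨c, hc⟩ : ∃ c : Cardinal.{0}, lift.{u, 0} c = #T := by
    rw [← lift_continuum.{u, 0}] at h1
    exact mem_range_lift_of_le h1
  have h2 : c ≤ #I := by
    refine hI c (fun d hd => ?_)
    have h3 : lift.{u, 0} d < #T := by rw [← hc]; exact lift_lt.mpr hd
    have h4 := hT _ h3
    rw [← lift_two_power, ← lift_continuum.{u, 0}] at h4
    exact lift_le.mp h4
  have h3 : lift.{0, u} #T ≤ lift.{u, 0} #I := by
    rw [lift_uzero, ← hc]
    exact lift_le.mpr h2
  obtain ⟨e⟩ := lift_mk_le'.mp h3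
  exact ⟨Function.invFun e, Function.invFun_surjective e.injective⟩

end MP_fe99c3_gt.TD
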