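import Mathlib

/-!
Definitions for the problem on first countable almost discretely Lindelof spaces.
-/

universe u

namespace MP_fe99c3_gt.TD

open Set Topology

/-- every discrete subset lies in a Lindelof subset -/
def AlmostDiscretelyLindelof (X : Type u) [TopologicalSpace X] : Prop :=
  ∀ D : Set X, DiscreteTopology D → ∃ L : Set X, IsLindelof L ∧ D ⊆ L

/-- the theta-closure of `B`: the points all of whose neighbourhoods have a closure meeting `B` -/
def thetaClosure {X : Type u} [TopologicalSpace X] (B : Set X) : Set X :=
  {x | ∀ U ∈ 𝓝 x, (closure U ∩ B).Nonempty}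

end MP_fe99c3_gt.TD
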