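import Mathlib
import Pool.Agent.Lib.MP_fe99c3_gt.Defs
import Pool.Agent.Lib.MP_fe99c3_gt.Basic

/-!
Cardinality of Lindelof sets, discrete sets, and the hereditary Lindelof number.
-/

universe u

namespace MP_fe99c3_gt.TD

open Set Filter Topology Cardinal

/-- a Lindelof first countable Hausdorff space has size at most the continuum -/
theorem mk_le_of_lindelof {X : Type u} [TopologicalSpace X] [T2Space X]
    [FirstCountableTopology X] [LindelofSpace X] : #X ≤ 𝔠 := by
  classical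
  rcases isEmpty_or_nonempty X with hX | ⟨⟨x₀⟩⟩
  · rw [Cardinal.mk_eq_zero]
    exact zero_le
  have hb : ∀ x : X, ∃ B : ℕ → Set X, (∀ n, IsOpen (B n) ∧ x ∈ B n) ∧
      ∀ U ∈ 𝓝 x, ∃ n, B n ⊆ U := by
    intro x
    obtain ⟨B, hB⟩ := (nhds_basis_opens x).exists_antitone_subbasis
    refine ⟨B, fun n => ⟨(hB.1 n).2, (hB.1 n).1⟩, fun U hU => ?_⟩
    obtain ⟨n, -, hn⟩ := hB.2.toHasBasis.mem_iff.1 hU
    exact ⟨n, hn⟩
  choose B hB1 hB2 using hb
  let F : (ℕ → X) → Option (ℕ → ℕ) → X := fun s o => match o with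
    | none => if h : ∃ p, Tendsto s atTop (𝓝 p) then h.choose else x₀
    | some r => if h : ∃ p, p ∉ ⋃ k, B (s k) (r k) then h.choose else x₀
  have hι : #(Option (ℕ → ℕ)) ≤ 𝔠 := by
    rw [mk_option]
    simp only [mk_pi, prod_const, lift_id, mk_nat, aleph0_power_aleph0]
    calc (𝔠 : Cardinal.{0}) + 1 ≤ 𝔠 + 𝔠 :=
          add_le_add le_rfl (le_trans (le_of_lt one_lt_aleph0) aleph0_le_continuum)
      _ = 𝔠 := continuum_add_self
  obtain ⟨Y, hx0, hY, hcl⟩ := closing_off hι F x₀
  have hYc : IsClosed Y := by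
    refine IsSeqClosed.isClosed ?_
    intro s p hs hp
    have h := hcl s hs none
    have hex : ∃ p, Tendsto s atTop (𝓝 p) := ⟨p, hp⟩
    have h2 : F s none = hex.choose := by
      show (if h : ∃ p, Tendsto s atTop (𝓝 p) then h.choose else x₀) = _
      rw [dif_pos hex]
    rw [h2, tendsto_nhds_unique hex.choose_spec hp] at h
    exact h
  have hYl : IsLindelof Y := hYc.isLindelof
  have huniv : ∀ p, p ∈ Y := by
    intro p
    by_contra hp
    have hn : ∀ y : Y, ∃ n, p ∉ B y n := by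
      intro y
      have hne : (y : X) ≠ p := fun h => hp (h ▸ y.2)
      obtain ⟨n, hn⟩ := hB2 y {p}ᶜ (isOpen_compl_singleton.mem_nhds hne)
      exact ⟨n, fun h => hn h rfl⟩
    choose n hn using hn
    obtain ⟨t, ht, hcov⟩ := hYl.elim_countable_subcover (fun y : Y => B y (n y))
      (fun y => (hB1 _ _).1) (fun y hy => mem_iUnion.2 ⟨⟨y, hy⟩, (hB1 _ _).2⟩)
    have htne : t.Nonempty := by
      obtain ⟨y, hy, -⟩ := mem_iUnion₂.1 (hcov hx0)
      exact ⟨y, hy⟩
    obtain ⟨e, he⟩ := ht.exists_eq_range htne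
    have hex : ∃ q, q ∉ ⋃ k, B ((fun k => (e k : X)) k) ((fun k => n (e k)) k) := by
      refine ⟨p, fun h => ?_⟩
      obtain ⟨k, hk⟩ := mem_iUnion.1 h
      exact hn _ hk
    have h := hcl (fun k => (e k : X)) (fun k => (e k).2) (some (fun k => n (e k)))
    have h2 : F (fun k => (e k : X)) (some (fun k => n (e k))) = hex.choose := by
      show (if h : ∃ p, p ∉ ⋃ k, B ((fun k => (e k : X)) k) ((fun k => n (e k)) k)
        then h.choose else x₀) = _
      rw [dif_pos hex]
    rw [h2] at h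
    have h3 := hcov h
    obtain ⟨y, hy, hy2⟩ := mem_iUnion₂.1 h3
    rw [he] at hy
    obtain ⟨k, rfl⟩ := hy
    exact hex.choose_spec (mem_iUnion.2 ⟨k, hy2⟩)
  have : Y = Set.univ := eq_univ_of_forall huniv
  rw [← mk_univ, ← this]
  exact hY

/-- Lindelof subsets of a first countable Hausdorff space have size at most the continuum -/
theorem IsLindelof.mk_le {X : Type u} [TopologicalSpace X] [T2Space X]
    [FirstCountableTopology X] {L : Set X} (hL : IsLindelof L) : #L ≤ 𝔠 := by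
  have : LindelofSpace L := isLindelof_iff_lindelofSpace.mp hL
  exact mk_le_of_lindelof

/-- discrete subsets have size at most the continuum -/
theorem mk_discrete_le {X : Type u} [TopologicalSpace X] [T2Space X]
    [FirstCountableTopology X] (hX : AlmostDiscretelyLindelof X) {D : Set X}
    (hD : DiscreteTopology D) : #D ≤ 𝔠 := by
  obtain ⟨L, hL, hDL⟩ := hX D hD
  exact (mk_le_mk_of_subset hDL).trans (IsLindelof.mk_le hL)

/-- a set is discrete when every point has an open neighbourhood meeting it in this point only -/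
theorem discrete_of {X : Type u} [TopologicalSpace X] {D : Set X}
    (h : ∀ x ∈ D, ∃ U, IsOpen U ∧ x ∈ U ∧ ∀ y ∈ D, y ∈ U → y = x) : DiscreteTopology D := by
  rw [discreteTopology_subtype_iff']
  intro x hx
  obtain ⟨U, hU, hxU, hy⟩ := h x hx
  refine ⟨U, hU, ?_⟩
  ext y
  constructor
  · rintro ⟨h1, h2⟩
    exact hy y h2 h1
  · intro h1
    rw [mem_singleton_iff] at h1
    subst h1
    exact ⟨hxU, hx⟩

/-- the hereditary Lindelof number is at most the continuum -/
theorem exists_subfamily {X : Type u} [TopologicalSpace X] [T2Space X]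
    [FirstCountableTopology X] (hX : AlmostDiscretelyLindelof X) (V : Set (Set X))
    (hV : ∀ U ∈ V, IsOpen U) : ∃ W ⊆ V, #W ≤ 𝔠 ∧ ⋃₀ W = ⋃₀ V := by
  classical
  by_contra hcon
  push Not at hcon
  rcases isEmpty_or_nonempty X with hE | ⟨⟨x₀⟩⟩
  · refine hcon ∅ (empty_subset _) (by simp) ?_
    ext x
    exact isEmptyElim x
  -- choice of a member around each point
  let c : X → Set X := fun z => if h : ∃ U ∈ V, z ∈ U then h.choose else ∅
  have hc : ∀ z ∈ ⋃₀ V, c z ∈ V ∧ z ∈ c z := by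
    intro z hz
    have h : ∃ U ∈ V, z ∈ U := hz
    have : c z = h.choose := dif_pos h
    rw [this]
    exact h.choose_spec
  let G : Set X → X := fun S =>
    if h : ∃ p ∈ ⋃₀ V, ∀ z ∈ closure S, z ∈ ⋃₀ V → p ∉ c z then h.choose else x₀
  have hG : ∀ S : Set X, #S ≤ 𝔠 → G S ∈ ⋃₀ V ∧ ∀ z ∈ closure S, z ∈ ⋃₀ V → G S ∉ c z := by
    intro S hS
    have h : ∃ p ∈ ⋃₀ V, ∀ z ∈ closure S, z ∈ ⋃₀ V → p ∉ c z := by
      by_contra hno
      push Not at hno
      refine hcon (c '' (closure S ∩ ⋃₀ V)) ?_ ?_ ?_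
      · rintro _ ⟨z, ⟨-, hz⟩, rfl⟩
        exact (hc z hz).1
      · exact mk_image_le.trans ((mk_le_mk_of_subset inter_subset_left).trans (mk_closure_le hS))
      · refine subset_antisymm ?_ ?_
        · refine sUnion_subset_sUnion ?_
          rintro _ ⟨z, ⟨-, hz⟩, rfl⟩
          exact (hc z hz).1
        · intro p hp
          obtain ⟨z, h1, h2, h3⟩ := hno p hp
          exact ⟨c z, ⟨z, ⟨h1, h2⟩, rfl⟩, h3⟩
    have h2 : G S = h.choose := dif_pos h
    rw [h2]
    exact h.choose_spec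
  obtain ⟨I, _, _, hI1, hI2⟩ := exists_succ_cont
  obtain ⟨y, hy⟩ := exists_rec (I := I) G
  have hsmall : ∀ a, #(y '' Iio a) ≤ 𝔠 := by
    intro a
    have h := mk_image_le_lift (f := y) (s := Iio a)
    have h3 : Cardinal.lift.{u, 0} #(Iio a) ≤ 𝔠 := by
      rw [← lift_continuum.{u, 0}]
      exact lift_le.mpr (hI1 a)
    have h4 := h.trans h3
    rwa [lift_uzero] at h4
  have h1 : ∀ a, y a ∈ ⋃₀ V := fun a => by rw [hy a]; exact (hG _ (hsmall a)).1
  have h2 : ∀ a, y a ∉ closure (y '' Iio a) := by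
    intro a ha
    have := (hG _ (hsmall a)).2 (y a) ha (h1 a)
    rw [← hy a] at this
    exact this (hc _ (h1 a)).2
  have h3 : ∀ a b, a < b → y b ∉ c (y a) := by
    intro a b hab
    have := (hG _ (hsmall b)).2 (y a) (subset_closure ⟨a, hab, rfl⟩) (h1 a)
    rwa [← hy b] at this
  have hinj : Function.Injective y := by
    intro a b hab
    rcases lt_trichotomy a b with h | h | h
    · exact absurd (hab ▸ (hc _ (h1 a)).2) (h3 a b h)
    · exact h
    · exact absurd (hab ▸ (hc _ (h1 b)).2) (h3 b a h)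
  have hdisc : DiscreteTopology (range y) := by
    refine discrete_of ?_
    rintro _ ⟨a, rfl⟩
    refine ⟨c (y a) ∩ (closure (y '' Iio a))ᶜ,
      (hV _ (hc _ (h1 a)).1).inter isClosed_closure.isOpen_compl, ⟨(hc _ (h1 a)).2, h2 a⟩, ?_⟩
    rintro _ ⟨b, rfl⟩ ⟨hb1, hb2⟩
    rcases lt_trichotomy a b with h | h | h
    · exact absurd hb1 (h3 a b h)
    · rw [h]
    · exact absurd (subset_closure (mem_image_of_mem y (show b ∈ Iio a from h))) hb2
  have hle := mk_discrete_le hX hdisc
  have heq := mk_range_eq_of_injective hinj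
  rw [lift_uzero] at heq
  rw [heq] at hle
  have : #I ≤ 𝔠 := by
    rw [← lift_continuum.{u, 0}] at hle
    exact lift_le.mp hle
  exact absurd this (not_le.mpr hI2)

end MP_fe99c3_gt.TD
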