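import Mathlib
import Pool.Agent.Lib.MP_fe99c3_gt.Lindelof
import Pool.Agent.Lib.MP_fe99c3_gt.Kappa

/-!
The main closing off argument.
-/

universe u

namespace MP_fe99c3_gt.TD

open Set Filter Topology Cardinal

/-- the impossible sequence: a discrete sequence `x` together with open sets `V a ξ` that cover
the closures of all initial segments and are avoided by later points -/
theorem no_seq {X : Type u} [TopologicalSpace X] [FirstCountableTopology X]
    (hX : AlmostDiscretelyLindelof X) {J I : Type} [LinearOrder J] [WellFoundedLT J] [Nonempty J]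
    (ℓ : I → J) (hI : ∀ f : ℕ → J, ∃ a, ∀ n, f n < a) (x : J → X) (V : J → I → Set X)
    (N : J → Set X) (hV : ∀ a ξ, IsOpen (V a ξ)) (hN : ∀ a, IsOpen (N a))
    (hcov : ∀ a, closure (x '' Iio a) ⊆ ⋃ ξ, V a ξ)
    (hxN : ∀ a, x a ∈ N a) (hxcl : ∀ a, x a ∉ closure (x '' Iio a))
    (hxN' : ∀ a b, a < b → x b ∉ N a) (hxV : ∀ a ξ c, a < c → ℓ ξ < c → x c ∉ V a ξ) :
    False := by
  have hD : DiscreteTopology (range x) := by
    refine discrete_of ?_
    rintro _ ⟨a, rfl⟩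
    refine ⟨N a ∩ (closure (x '' Iio a))ᶜ, (hN a).inter isClosed_closure.isOpen_compl,
      ⟨hxN a, hxcl a⟩, ?_⟩
    rintro _ ⟨d, rfl⟩ ⟨hd1, hd2⟩
    rcases lt_trichotomy a d with h | h | h
    · exact absurd hd1 (hxN' a d h)
    · rw [h]
    · exact absurd (subset_closure (mem_image_of_mem x (show d ∈ Iio a from h))) hd2
  obtain ⟨L, hL, hDL⟩ := hX _ hD
  have hL2 : IsLindelof (L ∩ closure (range x)) := hL.inter_right isClosed_closure
  obtain ⟨t, ht, htcov⟩ := hL2.elim_countable_subcover (fun a : J × I => V a.1 a.2)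
    (fun a => hV _ _) (by
      rintro p ⟨-, hp⟩
      obtain ⟨s, hs, hlim⟩ := mem_closure_iff_seq_limit.1 hp
      choose f hf using hs
      obtain ⟨a, ha⟩ := hI f
      have hpa : p ∈ closure (x '' Iio a) := mem_closure_of_tendsto hlim
        (Eventually.of_forall fun n => ⟨f n, ha n, hf n⟩)
      obtain ⟨ξ, hξ⟩ := mem_iUnion.1 (hcov a hpa)
      exact mem_iUnion.2 ⟨(a, ξ), hξ⟩)
  have hmem : ∀ c, x c ∈ L ∩ closure (range x) := fun c =>
    ⟨hDL ⟨c, rfl⟩, subset_closure ⟨c, rfl⟩⟩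
  have htne : t.Nonempty := by
    obtain ⟨a₀⟩ : Nonempty J := inferInstance
    obtain ⟨b, hb, -⟩ := mem_iUnion₂.1 (htcov (hmem a₀))
    exact ⟨b, hb⟩
  obtain ⟨e, he⟩ := ht.exists_eq_range htne
  obtain ⟨a, ha⟩ := hI (fun k => (e k).1)
  obtain ⟨b, hb⟩ := hI (fun k => ℓ (e k).2)
  obtain ⟨q, hq, hq2⟩ := mem_iUnion₂.1 (htcov (hmem (max a b)))
  rw [he] at hq
  obtain ⟨k, rfl⟩ := hq
  exact hxV _ _ _ (lt_of_lt_of_le (ha k) (le_max_left _ _))
    (lt_of_lt_of_le (hb k) (le_max_right _ _)) hq2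

/-- the main lemma: for an assignment of open sets to subsets there is a closed set `Y` of size
at most `lam` such that for each outside point `p` some small discrete `S` in `Y` has a
closure which is not covered by the sets `Φ S (ρ ξ)` for a map `ρ` from `I` to indices of sets
that miss `p` -/
theorem mainLemma {X : Type u} [TopologicalSpace X] [T2Space X] [FirstCountableTopology X]
    (hX : AlmostDiscretelyLindelof X) {J I : Type} [LinearOrder J] [WellFoundedLT J] [Nonempty J]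
    (ℓ : I → J) (lam : Cardinal.{0}) (hc : 𝔠 ≤ lam) (hω : lam ^ ℵ₀ ≤ lam) (hJ : #J ≤ lam)
    (hseg : ∀ j : J, lam ^ #(Iio j) ≤ lam)
    (hC : ∀ j : J, (𝔠 : Cardinal.{0}) ^ #{ξ : I | ℓ ξ < j} ≤ lam)
    (hI : ∀ f : ℕ → J, ∃ a, ∀ n, f n < a) (Φ : Set X → ℝ → Set X)
    (hopen : ∀ S r, IsOpen (Φ S r)) :
    ∃ Y : Set X, #Y ≤ lift.{u} lam ∧ IsClosed Y ∧
      ∀ p, p ∉ Y → ∃ S ⊆ Y, DiscreteTopology S ∧ (∃ j : J, #S ≤ lift.{u} #(Iio j)) ∧
        ¬ ∃ ρ : I → ℝ, (∀ ξ, p ∉ Φ S (ρ ξ)) ∧ closure S ⊆ ⋃ ξ, Φ S (ρ ξ) := by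
  classical
  have hlam : ℵ₀ ≤ lam := aleph0_le_continuum.trans hc
  rcases isEmpty_or_nonempty X with hE | ⟨⟨x₀⟩⟩
  · exact ⟨∅, by simp, isClosed_empty, fun p => isEmptyElim p⟩
  -- the forbidden set
  let bad : ∀ a : J, (Iio a → X) → (Iio a → {ξ : I | ℓ ξ < a} → ℝ) × (Iio a → ℝ) → Set X :=
    fun a x r =>
    closure (range x) ∪
      (⋃ b : Iio a, ⋃ ξ : {ξ : I | ℓ ξ < a}, Φ (x '' {d | d < b}) (r.1 b ξ)) ∪
      ⋃ b : Iio a, Φ {x b} (r.2 b)
  let ι : Type := Option (Σ a : J, (Iio a → {ξ : I | ℓ ξ < a} → ℝ) × (Iio a → ℝ))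
  let A : ι → Type := fun i => match i with
    | none => ℕ
    | some a => Iio a.1
  let F : ∀ i : ι, (A i → X) → X := fun i => match i with
    | none => fun s => if h : ∃ p, Tendsto s atTop (𝓝 p) then h.choose else x₀
    | some a => fun s => if h : ∃ p, p ∉ bad a.1 s a.2 then h.choose else x₀
  have hι : #ι ≤ lam := by
    have h1 : ∀ a : J, #((Iio a → {ξ : I | ℓ ξ < a} → ℝ) × (Iio a → ℝ)) ≤ lam := by
      intro a
      have h2 : #(Iio a → ℝ) ≤ lam := by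
        rw [mk_arrow, mk_real]
        simp only [lift_id]
        exact (power_le_power_right hc).trans (hseg a)
      have h2' : #({ξ : I | ℓ ξ < a} → ℝ) ≤ lam := by
        rw [mk_arrow, mk_real]
        simp only [lift_id]
        exact hC a
      have h3 : #(Iio a → {ξ : I | ℓ ξ < a} → ℝ) ≤ lam := by
        rw [mk_arrow]
        simp only [lift_id]
        exact (power_le_power_right h2').trans (hseg a)
      rw [mk_prod]
      simp only [lift_id]
      exact (mul_le_mul' h3 h2).trans (le_of_eq (mul_eq_self hlam))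
    have h2 : #(Σ a : J, (Iio a → {ξ : I | ℓ ξ < a} → ℝ) × (Iio a → ℝ)) ≤ lam := by
      rw [mk_sigma]
      calc Cardinal.sum (fun a : J => #((Iio a → {ξ : I | ℓ ξ < a} → ℝ) × (Iio a → ℝ)))
          ≤ Cardinal.sum (fun a : J => lam) := Cardinal.sum_le_sum _ _ h1
        _ = #J * lam := by simp
        _ ≤ lam * lam := mul_le_mul' hJ le_rfl
        _ = lam := mul_eq_self hlam
    show #(Option _) ≤ lam
    rw [mk_option]
    calc #(Σ a : J, (Iio a → {ξ : I | ℓ ξ < a} → ℝ) × (Iio a → ℝ)) + 1 ≤ lam + lam :=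
          add_le_add h2 (le_trans (le_of_lt one_lt_aleph0) hlam)
      _ = lam := add_eq_self hlam
  have hA : ∀ i, lam ^ #(A i) ≤ lam := by
    intro i
    cases i with
    | none =>
      show lam ^ #ℕ ≤ lam
      rw [mk_nat]
      exact hω
    | some a => exact hseg a.1
  obtain ⟨Y, hx0, hY, hclo⟩ := closing_off' lam hc A hι hA F x₀
  have hYc : IsClosed Y := by
    refine IsSeqClosed.isClosed ?_
    intro s p hs hp
    have h := hclo none s hs
    have hex : ∃ p, Tendsto s atTop (𝓝 p) := ⟨p, hp⟩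
    have h2 : F none s = hex.choose := by
      show (if h : ∃ p, Tendsto s atTop (𝓝 p) then h.choose else x₀) = _
      rw [dif_pos hex]
    rw [h2, tendsto_nhds_unique hex.choose_spec hp] at h
    exact h
  have hop : ∀ (a : J) (s : Iio a → X) (r : (Iio a → {ξ : I | ℓ ξ < a} → ℝ) × (Iio a → ℝ)),
      (∀ b, s b ∈ Y) → (∃ p, p ∉ bad a s r) → ∃ q ∈ Y, q ∉ bad a s r := by
    intro a s r hs hex
    have h := hclo (some ⟨a, r⟩) s hs
    have h2 : F (some ⟨a, r⟩) s = hex.choose := by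
      show (if h : ∃ p, p ∉ bad a s r then h.choose else x₀) = _
      rw [dif_pos hex]
    rw [h2] at h
    exact ⟨_, h, hex.choose_spec⟩
  refine ⟨Y, hY, hYc, ?_⟩
  intro p hp
  by_contra hcon
  push Not at hcon
  have hsmall : ∀ (a : J) (s : Iio a → X) (T : Set (Iio a)), #(s '' T) ≤ lift.{u} #(Iio a) := by
    intro a s T
    have h := mk_image_le_lift (f := s) (s := T)
    rw [lift_uzero] at h
    exact h.trans (lift_le.mpr (mk_set_le T))
  -- choices of coverings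
  have hρ : ∀ S : Set X, ∃ ρ : I → ℝ, S ⊆ Y → DiscreteTopology S →
      (∃ j : J, #S ≤ lift.{u} #(Iio j)) →
      (∀ ξ, p ∉ Φ S (ρ ξ)) ∧ closure S ⊆ ⋃ ξ, Φ S (ρ ξ) := by
    intro S
    by_cases h : S ⊆ Y ∧ DiscreteTopology S ∧ (∃ j : J, #S ≤ lift.{u} #(Iio j))
    · obtain ⟨ρ, h1, h2⟩ := hcon S h.1 h.2.1 h.2.2
      exact ⟨ρ, fun _ _ _ => ⟨h1, h2⟩⟩
    · exact ⟨fun _ => 0, fun h1 h2 h3 => absurd ⟨h1, h2, h3⟩ h⟩
  choose ρ hρ using hρ
  have hone : ∃ j : J, 1 ≤ lift.{u} #(Iio j) := by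
    obtain ⟨j₀⟩ : Nonempty J := inferInstance
    obtain ⟨j, hj⟩ := hI (fun _ => j₀)
    refine ⟨j, ?_⟩
    rw [Cardinal.one_le_iff_ne_zero, ne_eq, lift_eq_zero, mk_eq_zero_iff, not_isEmpty_iff]
    exact ⟨⟨j₀, hj 0⟩⟩
  have hν : ∀ y : X, ∃ r : ℝ, y ∈ Y → p ∉ Φ {y} r ∧ y ∈ Φ {y} r := by
    intro y
    by_cases hy : y ∈ Y
    · obtain ⟨h1, h2⟩ := hρ {y} (singleton_subset_iff.2 hy) inferInstance (by
        rw [mk_singleton]
        exact hone)
      obtain ⟨ξ, hξ⟩ := mem_iUnion.1 (h2 (subset_closure (mem_singleton y)))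
      exact ⟨ρ {y} ξ, fun _ => ⟨h1 ξ, hξ⟩⟩
    · exact ⟨0, fun h => absurd h hy⟩
  choose ν hν using hν
  let R : ∀ a : J, (Iio a → X) → (Iio a → {ξ : I | ℓ ξ < a} → ℝ) × (Iio a → ℝ) := fun a s =>
    (fun b ξ => ρ (s '' {d | d < b}) ξ, fun b => ν (s b))
  -- one step of the recursion
  have step : ∀ (a : J) (s : Iio a → X), ∃ q : X, (∀ b, s b ∈ Y) →
      (∀ b : Iio a, DiscreteTopology (s '' {d | d < b})) → q ∈ Y ∧ q ∉ bad a s (R a s) := by
    intro a s
    by_cases hs' : (∀ b, s b ∈ Y) ∧ ∀ b : Iio a, DiscreteTopology (s '' {d | d < b})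
    · obtain ⟨hs, hsd⟩ := hs'
      have hpbad : p ∉ bad a s (R a s) := by
        have hrange : range s ⊆ Y := by rintro _ ⟨b, rfl⟩; exact hs b
        rintro ((h | h) | h)
        · exact hp ((hYc.closure_subset_iff.2 hrange) h)
        · obtain ⟨b, h⟩ := mem_iUnion.1 h
          obtain ⟨ξ, h⟩ := mem_iUnion.1 h
          exact (hρ _ ((image_subset_range _ _).trans hrange) (hsd b) ⟨a, hsmall a s _⟩).1 ξ h
        · obtain ⟨b, h⟩ := mem_iUnion.1 h
          exact (hν _ (hs b)).1 h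
      obtain ⟨q, hq, hq2⟩ := hop a s (R a s) hs ⟨p, hpbad⟩
      exact ⟨q, fun _ _ => ⟨hq, hq2⟩⟩
    · exact ⟨x₀, fun h1 h2 => absurd ⟨h1, h2⟩ hs'⟩
  choose G hG using step
  obtain ⟨x, hx⟩ := exists_rec' G
  have himg : ∀ (a : J) (b : Iio a), (fun d : Iio a => x d) '' {d | d < b} = x '' Iio (b : J) := by
    intro a b
    ext z
    constructor
    · rintro ⟨d, hd, rfl⟩
      exact ⟨d, hd, rfl⟩
    · rintro ⟨d, hd, rfl⟩
      exact ⟨⟨d, lt_trans hd b.2⟩, hd, rfl⟩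
  have hrg : ∀ a : J, range (fun d : Iio a => x d) = x '' Iio a := by
    intro a
    ext z
    constructor
    · rintro ⟨d, rfl⟩
      exact ⟨d, d.2, rfl⟩
    · rintro ⟨d, hd, rfl⟩
      exact ⟨⟨d, hd⟩, rfl⟩
  have hall : ∀ a, x a ∈ Y ∧ x a ∉ bad a (fun b => x b) (R a (fun b => x b)) ∧
      DiscreteTopology (x '' Iio a) := by
    intro a
    induction a using WellFoundedLT.induction with
    | ind a ih =>
      have h := hG a (fun b => x b) (fun b => (ih b.1 b.2).1)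
        (fun b => by rw [himg]; exact (ih b.1 b.2).2.2)
      rw [← hx a] at h
      refine ⟨h.1, h.2, discrete_of ?_⟩
      rintro _ ⟨b, hb, rfl⟩
      refine ⟨Φ {x b} (ν (x b)) ∩ (closure (x '' Iio b))ᶜ,
        (hopen _ _).inter isClosed_closure.isOpen_compl, ⟨(hν _ (ih b hb).1).2, ?_⟩, ?_⟩
      · intro h2
        exact (ih b hb).2.1 (Or.inl (Or.inl (by rw [hrg]; exact h2)))
      · rintro _ ⟨d, hd, rfl⟩ ⟨hd1, hd2⟩
        rcases lt_trichotomy b d with h3 | h3 | h3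
        · exact absurd (Or.inr (mem_iUnion.2 ⟨⟨b, h3⟩, hd1⟩)) (ih d hd).2.1
        · rw [h3]
        · exact absurd (subset_closure (mem_image_of_mem x (show d ∈ Iio b from h3))) hd2
  have hxY : ∀ a, x a ∈ Y := fun a => (hall a).1
  have hxbad : ∀ a, x a ∉ bad a (fun b => x b) (R a (fun b => x b)) := fun a => (hall a).2.1
  have hsm2 : ∀ a : J, #(x '' Iio a) ≤ lift.{u} #(Iio a) := by
    intro a
    have h := hsmall a (fun d => x d) Set.univ
    rwa [image_univ, hrg] at h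
  have hsub : ∀ a : J, x '' Iio a ⊆ Y := by
    rintro a _ ⟨b, -, rfl⟩
    exact hxY b
  refine no_seq hX ℓ hI x (fun a ξ => Φ (x '' Iio a) (ρ (x '' Iio a) ξ))
    (fun a => Φ {x a} (ν (x a))) (fun a ξ => hopen _ _) (fun a => hopen _ _) ?_ ?_ ?_ ?_ ?_
  · intro a
    exact (hρ _ (hsub a) (hall a).2.2 ⟨a, hsm2 a⟩).2
  · intro a
    exact (hν _ (hxY a)).2
  · intro a h
    exact hxbad a (Or.inl (Or.inl (by rw [hrg]; exact h)))
  · intro a b hab h
    exact hxbad b (Or.inr (mem_iUnion.2 ⟨⟨a, hab⟩, h⟩))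
  · intro a ξ c hac hξc h
    refine hxbad c (Or.inl (Or.inr (mem_iUnion.2 ⟨⟨a, hac⟩, mem_iUnion.2 ⟨⟨ξ, hξc⟩, ?_⟩⟩)))
    show x c ∈ Φ ((fun d : Iio c => x d) '' {d | d < ⟨a, hac⟩})
      (ρ ((fun d : Iio c => x d) '' {d | d < ⟨a, hac⟩}) ξ)
    rw [himg]
    exact h

end MP_fe99c3_gt.TD
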