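import Mathlib
import Pool.Agent.Lib.MP_fe99c3_gt.Game

/-!
The criterion for having at most continuum many points.
-/

universe u

namespace MP_fe99c3_gt.TD

open Set Filter Topology Cardinal

/-- a nonempty type of size at most the continuum is an image of the reals -/
theorem exists_surj_real {T : Type u} [Nonempty T] (hT : #T ≤ 𝔠) :
    ∃ g : ℝ → T, Function.Surjective g := by
  have h3 : lift.{0, u} #T ≤ lift.{u, 0} #ℝ := by
    rw [lift_uzero, mk_real, lift_continuum]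
    exact hT
  obtain ⟨e⟩ := lift_mk_le'.mp h3
  exact ⟨Function.invFun e, Function.invFun_surjective e.injective⟩

/-- a point outside the closed set `C` whose closed neighbourhoods all meet `C` is in the
theta-closure of a countable closed discrete subset of `C` -/
theorem exists_closed_discrete {X : Type u} [TopologicalSpace X] [T2Space X]
    [FirstCountableTopology X] {C : Set X} (hC : IsClosed C) {p : X} (hp : p ∉ C)
    (h : ∀ U : Set X, IsOpen U → p ∈ U → (closure U ∩ C).Nonempty) :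
    ∃ E ⊆ C, E.Countable ∧ IsClosed E ∧ DiscreteTopology E ∧ p ∈ thetaClosure E := by
  obtain ⟨B, hB⟩ := (nhds_basis_opens p).exists_antitone_subbasis
  choose z hz using fun n => h (B n) (hB.1 n).2 (hB.1 n).1
  have hzlim : ∀ U ∈ 𝓝 p, ∃ N, ∀ n, N ≤ n → z n ∈ closure U := by
    intro U hU
    obtain ⟨n, -, hn⟩ := hB.2.toHasBasis.mem_iff.1 hU
    exact ⟨n, fun m hm => closure_mono ((hB.2.antitone hm).trans hn) (hz m).1⟩
  -- the range is locally finite
  have hloc : ∀ x : X, ∃ W, IsOpen W ∧ x ∈ W ∧ (W ∩ range z).Finite := by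
    intro x
    by_cases hxp : x = p
    · refine ⟨Cᶜ, hC.isOpen_compl, by rw [hxp]; exact hp, ?_⟩
      have : Cᶜ ∩ range z = ∅ := by
        ext y
        simp only [mem_inter_iff, mem_compl_iff, mem_empty_iff_false, iff_false, not_and]
        rintro hy ⟨n, rfl⟩
        exact hy (hz n).2
      rw [this]
      exact finite_empty
    · obtain ⟨W, U, hW, hU, hxW, hpU, hWU⟩ := t2_separation hxp
      obtain ⟨N, hN⟩ := hzlim U (hU.mem_nhds hpU)
      refine ⟨W, hW, hxW, ((finite_lt_nat N).image z).subset ?_⟩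
      rintro _ ⟨hy, n, rfl⟩
      refine ⟨n, ?_, rfl⟩
      by_contra hn
      have h1 := hN n (not_lt.mp hn)
      exact disjoint_left.1 (hWU.closure_right hW) hy h1
  have hsep : ∀ x : X, ∃ W, IsOpen W ∧ x ∈ W ∧ ∀ y ∈ range z, y ∈ W → y = x := by
    intro x
    obtain ⟨W, hW, hxW, hfin⟩ := hloc x
    refine ⟨W \ ((W ∩ range z) \ {x}), hW.sdiff (hfin.subset sdiff_subset).isClosed,
      ⟨hxW, fun h => h.2 rfl⟩, ?_⟩
    rintro y hy ⟨hyW, hyn⟩
    by_contra hne
    exact hyn ⟨⟨hyW, hy⟩, hne⟩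
  refine ⟨range z, ?_, countable_range z, ?_, ?_, ?_⟩
  · rintro _ ⟨n, rfl⟩
    exact (hz n).2
  · rw [← isOpen_compl_iff, isOpen_iff_mem_nhds]
    intro x hx
    obtain ⟨W, hW, hxW, hWy⟩ := hsep x
    filter_upwards [hW.mem_nhds hxW] with y hy hyz
    exact hx (hWy y hyz hy ▸ hyz)
  · refine discrete_of ?_
    intro x _
    exact hsep x
  · intro U hU
    obtain ⟨N, hN⟩ := hzlim U hU
    exact ⟨z N, hN N le_rfl, mem_range_self N⟩

/-- the general criterion -/
theorem master {X : Type u} [TopologicalSpace X] [T2Space X] [FirstCountableTopology X]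
    (hX : AlmostDiscretelyLindelof X)
    (H : ∀ S : Set X, DiscreteTopology S → (2 : Cardinal.{u}) ^ #S ≤ 𝔠 → ∃ 𝒪 : Set (Set X), #𝒪 ≤ 𝔠 ∧
      (∀ O ∈ 𝒪, IsOpen O) ∧ ∀ p, p ∉ closure S →
        (∃ E ⊆ closure S, E.Countable ∧ IsClosed E ∧ DiscreteTopology E ∧ p ∈ thetaClosure E) →
        ∃ 𝒱 ⊆ 𝒪, (∀ d < #𝒱, (2 : Cardinal.{u}) ^ d ≤ 𝔠) ∧ closure S ⊆ ⋃₀ 𝒱 ∧ p ∉ ⋃₀ 𝒱) :
    #X ≤ 𝔠 := by
  classical
  obtain ⟨I, _, _, _, hIc, hseg, hI, hI3⟩ := exists_kappa
  -- the theta sets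
  have H2 : ∀ S : Set X, ∃ Ψ : ℝ → Set X, (∀ r, IsOpen (Ψ r)) ∧
      (DiscreteTopology S → (2 : Cardinal.{u}) ^ #S ≤ 𝔠 → ∀ p, p ∉ closure S →
        ∃ ρ : I → ℝ, (∀ ξ, p ∉ Ψ (ρ ξ)) ∧ closure S ⊆ ⋃ ξ, Ψ (ρ ξ)) := by
    intro S
    by_cases hS : DiscreteTopology S ∧ (2 : Cardinal.{u}) ^ #S ≤ 𝔠
    · obtain ⟨𝒪, h𝒪c, h𝒪, hsep⟩ := H S hS.1 hS.2
      obtain ⟨W, hWsub, hWc, hWeq⟩ := exists_subfamily hX
        {V : Set X | IsOpen V ∧ Disjoint (closure V) (closure S)} (fun U hU => hU.1)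
      let 𝒬 : Set (Set X) := insert ∅ (𝒪 ∪ (fun V : Set X => (closure V)ᶜ) '' W)
      have h𝒬c : #𝒬 ≤ 𝔠 := by
        refine mk_insert_le.trans ?_
        have h1 : #((𝒪 ∪ (fun V : Set X => (closure V)ᶜ) '' W : Set (Set X))) ≤ 𝔠 :=
          (mk_union_le _ _).trans ((add_le_add h𝒪c (mk_image_le.trans hWc)).trans
            (le_of_eq continuum_add_self))
        calc #((𝒪 ∪ (fun V : Set X => (closure V)ᶜ) '' W : Set (Set X))) + 1 ≤ 𝔠 + 𝔠 :=
              add_le_add h1 (le_trans (le_of_lt one_lt_aleph0) aleph0_le_continuum)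
          _ = 𝔠 := continuum_add_self
      have h𝒬o : ∀ O ∈ 𝒬, IsOpen O := by
        rintro O (rfl | hO | ⟨V, -, rfl⟩)
        · exact isOpen_empty
        · exact h𝒪 O hO
        · exact isClosed_closure.isOpen_compl
      have : Nonempty 𝒬 := ⟨⟨∅, mem_insert _ _⟩⟩
      obtain ⟨g, hg⟩ := exists_surj_real h𝒬c
      refine ⟨fun r => (g r).1, fun r => h𝒬o _ (g r).2, fun _ _ p hp => ?_⟩
      by_cases hpW : p ∈ ⋃₀ W
      · obtain ⟨V, hV, hpV⟩ := hpW
        obtain ⟨r, hr⟩ := hg ⟨(closure V)ᶜ, mem_insert_of_mem _ (Or.inr ⟨V, hV, rfl⟩)⟩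
        obtain ⟨ξ⟩ : Nonempty I := inferInstance
        refine ⟨fun _ => r, fun _ => ?_, ?_⟩
        · show p ∉ (g r).1
          rw [hr]
          exact fun h => h (subset_closure hpV)
        · intro y hy
          refine mem_iUnion.2 ⟨ξ, ?_⟩
          show y ∈ (g r).1
          rw [hr]
          exact fun h => (disjoint_left.1 (hWsub hV).2) h hy
      · rw [hWeq] at hpW
        have hθ : ∃ E ⊆ closure S, E.Countable ∧ IsClosed E ∧ DiscreteTopology E ∧
            p ∈ thetaClosure E := by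
          refine exists_closed_discrete isClosed_closure hp (fun U hU hpU => ?_)
          by_contra hne
          refine hpW ⟨U, ⟨hU, ?_⟩, hpU⟩
          rw [disjoint_iff_inter_eq_empty]
          exact not_nonempty_iff_eq_empty.1 hne
        obtain ⟨𝒱, h𝒱sub, h𝒱c, h𝒱cov, h𝒱p⟩ := hsep p hp hθ
        rcases 𝒱.eq_empty_or_nonempty with rfl | hne
        · obtain ⟨r, hr⟩ := hg ⟨∅, mem_insert _ _⟩
          refine ⟨fun _ => r, fun _ => ?_, ?_⟩
          · show p ∉ (g r).1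
            rw [hr]
            exact notMem_empty p
          · intro y hy
            have := h𝒱cov hy
            simp at this
        · have : Nonempty 𝒱 := hne.to_subtype
          obtain ⟨e, he⟩ := exists_surj hI3 h𝒱c
          have hr : ∀ ξ, ∃ r, (g r).1 = (e ξ).1 := by
            intro ξ
            obtain ⟨r, hr⟩ := hg ⟨(e ξ).1, mem_insert_of_mem _ (Or.inl (h𝒱sub (e ξ).2))⟩
            exact ⟨r, by rw [hr]⟩
          choose ρ hρ using hr
          refine ⟨ρ, fun ξ => ?_, ?_⟩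
          · show p ∉ (g (ρ ξ)).1
            rw [hρ ξ]
            exact fun h => h𝒱p ⟨_, (e ξ).2, h⟩
          · intro y hy
            obtain ⟨O, hO, hyO⟩ := h𝒱cov hy
            obtain ⟨ξ, hξ⟩ := he ⟨O, hO⟩
            refine mem_iUnion.2 ⟨ξ, ?_⟩
            show y ∈ (g (ρ ξ)).1
            rw [hρ ξ, hξ]
            exact hyO
    · exact ⟨fun _ => ∅, fun _ => isOpen_empty, fun h1 h2 => absurd ⟨h1, h2⟩ hS⟩
  choose Φ hΦo hΦ using H2
  have hseg' : ∀ a : I, (𝔠 : Cardinal.{0}) ^ #(Iio a) ≤ 𝔠 := fun a => cont_pow_le (hseg a)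
  obtain ⟨Y, hYc, hYcl, hY⟩ := mainLemma hX (id : I → I) 𝔠 le_rfl
    (le_of_eq continuum_power_aleph0) hIc hseg' hseg' hI Φ hΦo
  rw [lift_continuum] at hYc
  have huniv : ∀ p, p ∈ Y := by
    intro p
    by_contra hp
    obtain ⟨S, hSY, hSd, ⟨j, hj⟩, hno⟩ := hY p hp
    have hS : (2 : Cardinal.{u}) ^ #S ≤ 𝔠 := by
      refine (power_le_power_left two_ne_zero hj).trans ?_
      rw [← lift_two_power, ← lift_continuum.{u, 0}]
      exact lift_le.mpr (hseg j)
    exact hno (hΦ S hSd hS p (fun h => hp ((hYcl.closure_subset_iff.2 hSY) h)))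
  have : Y = Set.univ := eq_univ_of_forall huniv
  rw [← mk_univ, ← this]
  exact hYc

end MP_fe99c3_gt.TD
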