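import Mathlib
import Pool.Agent.Lib.MP_fe99c3_gt.Master

/-!
A closed set of size at most the continuum that is dense in the sense of theta-closures of its
countable closed discrete subsets.
-/

universe u

namespace MP_fe99c3_gt.TD

open Set Filter Topology Cardinal

theorem exists_thetaDense {X : Type u} [TopologicalSpace X] [T2Space X] [FirstCountableTopology X]
    (hX : AlmostDiscretelyLindelof X) :
    ∃ Y : Set X, #Y ≤ 𝔠 ∧ IsClosed Y ∧ ∀ p, p ∉ Y → ∃ E ⊆ Y, E.Countable ∧ IsClosed E ∧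
      DiscreteTopology E ∧ p ∈ thetaClosure E := by
  classical
  obtain ⟨I, _, _, _, hIc, hseg, hI, hI3⟩ := exists_kappa
  -- the theta sets
  have H2 : ∀ S : Set X, ∃ Ψ : ℝ → Set X, (∀ r, IsOpen (Ψ r)) ∧
      ∀ p, p ∉ closure S → (∃ r, p ∉ Ψ r ∧ closure S ⊆ Ψ r) ∨
        ∃ E ⊆ closure S, E.Countable ∧ IsClosed E ∧ DiscreteTopology E ∧ p ∈ thetaClosure E := by
    intro S
    obtain ⟨W, hWsub, hWc, hWeq⟩ := exists_subfamily hX
      {V : Set X | IsOpen V ∧ Disjoint (closure V) (closure S)} (fun U hU => hU.1)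
    let 𝒬 : Set (Set X) := insert Set.univ ((fun V : Set X => (closure V)ᶜ) '' W)
    have h𝒬c : #𝒬 ≤ 𝔠 := by
      refine mk_insert_le.trans ?_
      calc #((fun V : Set X => (closure V)ᶜ) '' W : Set (Set X)) + 1 ≤ 𝔠 + 𝔠 :=
            add_le_add (mk_image_le.trans hWc)
              (le_trans (le_of_lt one_lt_aleph0) aleph0_le_continuum)
        _ = 𝔠 := continuum_add_self
    have h𝒬o : ∀ O ∈ 𝒬, IsOpen O := by
      rintro O (rfl | ⟨V, -, rfl⟩)
      · exact isOpen_univ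
      · exact isClosed_closure.isOpen_compl
    have : Nonempty 𝒬 := ⟨⟨Set.univ, mem_insert _ _⟩⟩
    obtain ⟨g, hg⟩ := exists_surj_real h𝒬c
    refine ⟨fun r => (g r).1, fun r => h𝒬o _ (g r).2, fun p hp => ?_⟩
    by_cases hpW : p ∈ ⋃₀ W
    · left
      obtain ⟨V, hV, hpV⟩ := hpW
      obtain ⟨r, hr⟩ := hg ⟨(closure V)ᶜ, mem_insert_of_mem _ ⟨V, hV, rfl⟩⟩
      refine ⟨r, ?_, ?_⟩
      · show p ∉ (g r).1
        rw [hr]
        exact fun h => h (subset_closure hpV)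
      · intro y hy
        show y ∈ (g r).1
        rw [hr]
        exact fun h => (disjoint_left.1 (hWsub hV).2) h hy
    · right
      rw [hWeq] at hpW
      refine exists_closed_discrete isClosed_closure hp (fun U hU hpU => ?_)
      by_contra hne
      refine hpW ⟨U, ⟨hU, ?_⟩, hpU⟩
      rw [disjoint_iff_inter_eq_empty]
      exact not_nonempty_iff_eq_empty.1 hne
  choose Φ hΦo hΦ using H2
  have hseg' : ∀ a : I, (𝔠 : Cardinal.{0}) ^ #(Iio a) ≤ 𝔠 := fun a => cont_pow_le (hseg a)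
  obtain ⟨Y, hYc, hYcl, hY⟩ := mainLemma hX (id : I → I) 𝔠 le_rfl
    (le_of_eq continuum_power_aleph0) hIc hseg' hseg' hI Φ hΦo
  rw [lift_continuum] at hYc
  refine ⟨Y, hYc, hYcl, fun p hp => ?_⟩
  obtain ⟨S, hSY, hSd, -, hno⟩ := hY p hp
  have hScl : closure S ⊆ Y := hYcl.closure_subset_iff.2 hSY
  rcases hΦ S p (fun h => hp (hScl h)) with ⟨r, hr1, hr2⟩ | ⟨E, hE, h⟩
  · exfalso
    obtain ⟨ξ⟩ : Nonempty I := inferInstance
    exact hno ⟨fun _ => r, fun _ => hr1, fun y hy => mem_iUnion.2 ⟨ξ, hr2 hy⟩⟩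
  · exact ⟨E, hE.trans hScl, h⟩

end MP_fe99c3_gt.TD
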