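import Mathlib
import Pool.Agent.Lib.MP_fe99c3_gt.ThetaDense

/-!
Theta-closures of countable closed discrete sets and theta-limits of sequences.
-/

universe u

namespace MP_fe99c3_gt.TD

open Set Filter Topology Cardinal

/-- the theta-limits of the sequence `d`: the points `x` such that the closure of each neighbourhood
of `x` contains `d n` for all but finitely many `n` -/
def thetaLimits {X : Type u} [TopologicalSpace X] (d : ℕ → X) : Set X :=
  {x | ∀ U ∈ 𝓝 x, ∀ᶠ n in atTop, d n ∈ closure U}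

/-- the cardinality is governed by the theta-closures of the countable closed discrete subsets -/
theorem le_of_thetaClosure {X : Type u} [TopologicalSpace X] [T2Space X]
    [FirstCountableTopology X] (hX : AlmostDiscretelyLindelof X) (c : Cardinal.{u}) (hc : 𝔠 ≤ c)
    (hE : ∀ E : Set X, E.Countable → IsClosed E → DiscreteTopology E → #(thetaClosure E) ≤ c) :
    #X ≤ c := by
  classical
  have hinf : ℵ₀ ≤ c := aleph0_le_continuum.trans hc
  obtain ⟨Y, hYc, -, hY⟩ := exists_thetaDense hX
  let T : (ℕ → Y) → Set X := fun z =>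
    if IsClosed (range (fun n => (z n : X))) ∧ DiscreteTopology (range (fun n => (z n : X)))
    then thetaClosure (range (fun n => (z n : X))) else ∅
  have hT : ∀ z, #(T z) ≤ c := by
    intro z
    by_cases h : IsClosed (range (fun n => (z n : X))) ∧
      DiscreteTopology (range (fun n => (z n : X)))
    · have : T z = thetaClosure (range (fun n => (z n : X))) := if_pos h
      rw [this]
      exact hE _ (countable_range _) h.1 h.2
    · have : T z = ∅ := if_neg h
      rw [this]
      simp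
  have hU : #(⋃ z, T z) ≤ c := by
    refine (mk_iUnion_le_sum_mk).trans ?_
    calc Cardinal.sum (fun z => #(T z)) ≤ Cardinal.sum (fun _ : ℕ → Y => c) :=
          Cardinal.sum_le_sum _ _ hT
      _ = #(ℕ → Y) * c := by simp
      _ ≤ c * c := mul_le_mul' ((mk_seq_le hYc).trans hc) le_rfl
      _ = c := mul_eq_self hinf
  have hcov : (Set.univ : Set X) ⊆ Y ∪ ⋃ z, T z := by
    intro p _
    by_cases hp : p ∈ Y
    · exact Or.inl hp
    · right
      obtain ⟨E, hEY, hEc, hEcl, hEd, hpE⟩ := hY p hp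
      have hne : E.Nonempty := by
        obtain ⟨y, hy⟩ := hpE Set.univ univ_mem
        exact ⟨y, hy.2⟩
      obtain ⟨e, he⟩ := hEc.exists_eq_range hne
      have hmem : ∀ n, e n ∈ Y := fun n => hEY (he ▸ mem_range_self n)
      refine mem_iUnion.2 ⟨fun n => ⟨e n, hmem n⟩, ?_⟩
      have h : IsClosed (range (fun n => (((fun n => ⟨e n, hmem n⟩ : ℕ → Y) n : X)))) ∧
          DiscreteTopology (range (fun n => (((fun n => ⟨e n, hmem n⟩ : ℕ → Y) n : X)))) := by
        show IsClosed (range e) ∧ DiscreteTopology (range e)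
        rw [← he]
        exact ⟨hEcl, hEd⟩
      have h2 : T (fun n => ⟨e n, hmem n⟩) = thetaClosure (range e) := if_pos h
      rw [h2, ← he]
      exact hpE
  rw [← mk_univ]
  calc #(Set.univ : Set X) ≤ #(Y ∪ ⋃ z, T z : Set X) := mk_le_mk_of_subset hcov
    _ ≤ #Y + #(⋃ z, T z) := mk_union_le _ _
    _ ≤ c + c := add_le_add (hYc.trans hc) hU
    _ = c := add_eq_self hinf

/-- the number of sequences of subsets of a countable set -/
theorem mk_traces_le {X : Type u} {E : Set X} (hE : E.Countable) : #(ℕ → Set E) ≤ 𝔠 := by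
  have h1 : #E ≤ ℵ₀ := hE.le_aleph0
  have h2 : #(Set E) ≤ 𝔠 := by
    rw [mk_set]
    calc (2 : Cardinal.{u}) ^ #E ≤ 2 ^ ℵ₀ := power_le_power_left two_ne_zero h1
      _ = 𝔠 := two_power_aleph0
  calc #(ℕ → Set E) = #(Set E) ^ (ℵ₀ : Cardinal.{u}) := by simp
    _ ≤ 𝔠 ^ (ℵ₀ : Cardinal.{u}) := power_le_power_right h2
    _ = 𝔠 := continuum_power_aleph0

/-- a subset of a closed discrete set is closed -/
theorem isClosed_of_subset_discrete {X : Type u} [TopologicalSpace X] {E A : Set X}
    (hE : IsClosed E) (hd : DiscreteTopology E) (hA : A ⊆ E) : IsClosed A := by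
  have h1 : IsClosed ((↑) ⁻¹' A : Set E) := isClosed_discrete _
  have h2 := hE.isClosedEmbedding_subtypeVal.isClosedMap _ h1
  rwa [Subtype.image_preimage_coe, inter_eq_right.2 hA] at h2

/-- a countable closed discrete set with more than `c ≥ 𝔠` points in its theta-closure contains an
injective sequence with more than `c` theta-limits -/
theorem exists_thetaLimits {X : Type u} [TopologicalSpace X] [T2Space X]
    [FirstCountableTopology X] {c : Cardinal.{u}} (hc : 𝔠 ≤ c) {E : Set X} (hEc : E.Countable)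
    (hEcl : IsClosed E) (hEd : DiscreteTopology E) (hbig : c < #(thetaClosure E)) :
    ∃ d : ℕ → X, Function.Injective d ∧ IsClosed (range d) ∧ DiscreteTopology (range d) ∧
      c < #(thetaLimits d) := by
  classical
  have hinf : ℵ₀ ≤ c := aleph0_le_continuum.trans hc
  choose U hU using fun x : X => (𝓝 x).exists_antitone_basis
  let tr : X → ℕ → Set E := fun x n => {e : E | (e : X) ∈ closure (U x n)}
  -- some fibre is large
  have hfib : ∃ v : ℕ → Set E, c < #({x | x ∈ thetaClosure E \ E ∧ tr x = v} : Set X) := by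
    by_contra hno
    push Not at hno
    refine absurd hbig (not_lt.2 ?_)
    have hcov : thetaClosure E ⊆ E ∪ ⋃ v : ℕ → Set E, {x | x ∈ thetaClosure E \ E ∧ tr x = v} := by
      intro x hx
      by_cases hxE : x ∈ E
      · exact Or.inl hxE
      · exact Or.inr (mem_iUnion.2 ⟨tr x, ⟨hx, hxE⟩, rfl⟩)
    have hsum : #(⋃ v : ℕ → Set E, {x | x ∈ thetaClosure E \ E ∧ tr x = v} : Set X) ≤ c := by
      refine (mk_iUnion_le_sum_mk).trans ?_
      calc Cardinal.sum (fun v : ℕ → Set E => #({x | x ∈ thetaClosure E \ E ∧ tr x = v} : Set X))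
          ≤ Cardinal.sum (fun _ : ℕ → Set E => c) := Cardinal.sum_le_sum _ _ hno
        _ = #(ℕ → Set E) * c := by simp
        _ ≤ c * c := mul_le_mul' ((mk_traces_le hEc).trans hc) le_rfl
        _ = c := mul_eq_self hinf
    calc #(thetaClosure E) ≤ #(E ∪ ⋃ v : ℕ → Set E, {x | x ∈ thetaClosure E \ E ∧ tr x = v} :
          Set X) := mk_le_mk_of_subset hcov
      _ ≤ #E + #(⋃ v : ℕ → Set E, {x | x ∈ thetaClosure E \ E ∧ tr x = v} : Set X) :=
          mk_union_le _ _
      _ ≤ c + c := add_le_add (hEc.le_aleph0.trans hinf) hsum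
      _ = c := add_eq_self hinf
  obtain ⟨v, hv⟩ := hfib
  have hne : ({x | x ∈ thetaClosure E \ E ∧ tr x = v} : Set X).Nonempty := by
    rw [nonempty_iff_ne_empty]
    intro h
    rw [h] at hv
    simp at hv
  obtain ⟨x₀, ⟨hx₀, hx₀E⟩, hx₀v⟩ := hne
  have hvne : ∀ n, (v n).Nonempty := by
    intro n
    obtain ⟨y, hy1, hy2⟩ := hx₀ (U x₀ n) ((hU x₀).mem n)
    exact ⟨⟨y, hy2⟩, by rw [← hx₀v]; exact hy1⟩
  have hvanti : ∀ m n, m ≤ n → v n ⊆ v m := by
    intro m n hmn e he
    rw [← hx₀v] at he ⊢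
    exact closure_mono ((hU x₀).antitone hmn) he
  have hvout : ∀ e : E, ∃ n, e ∉ v n := by
    intro e
    have hne : x₀ ≠ (e : X) := fun h => hx₀E (h ▸ e.2)
    obtain ⟨A, B, hA, hB, hxA, heB, hAB⟩ := t2_separation hne
    obtain ⟨n, hn⟩ := (hU x₀).mem_iff.1 (hA.mem_nhds hxA)
    refine ⟨n, fun h => ?_⟩
    rw [← hx₀v] at h
    have h1 : (e : X) ∈ closure A := closure_mono hn h
    exact (disjoint_left.1 (hAB.closure_left hB) h1) heB
  -- the sequence
  obtain ⟨f, hf1, hf2⟩ := exists_seq_of_forall_finset_exists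
    (fun p : ℕ × E => p.2 ∈ v p.1) (fun p q : ℕ × E => p.1 < q.1 ∧ p.2 ∉ v q.1) (by
      intro s _
      choose k hk using hvout
      let N := s.sup (fun p => max (p.1 + 1) (k p.2))
      obtain ⟨e, he⟩ := hvne N
      refine ⟨(N, e), he, fun p hp => ?_⟩
      have h1 : max (p.1 + 1) (k p.2) ≤ N := Finset.le_sup (f := fun p : ℕ × E =>
        max (p.1 + 1) (k p.2)) hp
      exact ⟨lt_of_lt_of_le (Nat.lt_succ_self _) ((le_max_left _ _).trans h1),
        fun h => hk p.2 (hvanti _ _ ((le_max_right _ _).trans h1) h)⟩)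
  have hmono : StrictMono (fun n => (f n).1) := fun m n hmn => (hf2 m n hmn).1
  have hinj : Function.Injective (fun n => ((f n).2 : X)) := by
    intro m n hmn
    have h : (f m).2 = (f n).2 := Subtype.ext hmn
    rcases lt_trichotomy m n with h1 | h1 | h1
    · exact absurd (h ▸ hf1 n) (hf2 m n h1).2
    · exact h1
    · exact absurd (h.symm ▸ hf1 m) (hf2 n m h1).2
  have hsub : range (fun n => ((f n).2 : X)) ⊆ E := by
    rintro _ ⟨n, rfl⟩
    exact (f n).2.2
  refine ⟨fun n => ((f n).2 : X), hinj, isClosed_of_subset_discrete hEcl hEd hsub,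
    DiscreteTopology.of_subset hEd hsub, hv.trans_le (mk_le_mk_of_subset ?_)⟩
  rintro x ⟨-, hxv⟩ W hW
  obtain ⟨j, hj⟩ := (hU x).mem_iff.1 hW
  filter_upwards [eventually_ge_atTop j] with n hn
  have h1 : (f n).2 ∈ v j := hvanti _ _ (hn.trans (hmono.id_le n)) (hf1 n)
  rw [← hxv] at h1
  exact closure_mono hj h1

/-- `A` is a clique: the closures of neighbourhoods of finitely many points of `A` always have a
common point -/
def Clique {X : Type u} [TopologicalSpace X] (A : Set X) : Prop :=
  ∀ F : Finset X, (F : Set X) ⊆ A → ∀ U : X → Set X, (∀ x ∈ F, U x ∈ 𝓝 x) →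
    (⋂ x ∈ F, closure (U x)).Nonempty

theorem clique_thetaLimits {X : Type u} [TopologicalSpace X] (d : ℕ → X) :
    Clique (thetaLimits d) := by
  intro F hF U hU
  have h1 : ∀ᶠ n in atTop, ∀ x ∈ F, d n ∈ closure (U x) :=
    (Filter.eventually_all_finset F).2 fun x hx => hF hx (U x) (hU x hx)
  obtain ⟨n, hn⟩ := h1.exists
  exact ⟨d n, mem_iInter₂.2 hn⟩

theorem isClosed_thetaLimits {X : Type u} [TopologicalSpace X] (d : ℕ → X) :
    IsClosed (thetaLimits d) := by
  rw [← closure_subset_iff_isClosed]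
  intro x hx U hU
  obtain ⟨y, hyU, hy⟩ := mem_closure_iff_nhds.1 hx (interior U) (interior_mem_nhds.2 hU)
  exact (hy (interior U) (isOpen_interior.mem_nhds hyU)).mono fun n hn =>
    closure_mono interior_subset hn

theorem discrete_image {X : Type u} [TopologicalSpace X] {Y : Set X} {D : Set Y}
    (hD : DiscreteTopology D) : DiscreteTopology ((↑) '' D : Set X) :=
  ((IsEmbedding.subtypeVal (p := (· ∈ Y))).homeomorphImage D).symm.isEmbedding.discreteTopology

theorem adl_of_isClosed {X : Type u} [TopologicalSpace X] (hX : AlmostDiscretelyLindelof X)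
    {Y : Set X} (hY : IsClosed Y) : AlmostDiscretelyLindelof Y := by
  intro D hD
  obtain ⟨L, hL, hDL⟩ := hX ((↑) '' D) (discrete_image hD)
  refine ⟨(↑) ⁻¹' L, ?_, fun y hy => hDL ⟨y, hy, rfl⟩⟩
  rw [Subtype.isLindelof_iff, Subtype.image_preimage_coe]
  exact hL.inter_left hY

/-- the cardinality is governed by the theta-limits of sequences in closed cliques -/
theorem le_of_thetaLimits {X : Type u} [TopologicalSpace X] [T2Space X]
    [FirstCountableTopology X] (hX : AlmostDiscretelyLindelof X) (c : Cardinal.{u}) (hc : 𝔠 ≤ c)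
    (h : ∀ Y : Set X, IsClosed Y → Clique Y → ∀ d : ℕ → Y, Function.Injective d →
      IsClosed (range d) → DiscreteTopology (range d) → #(thetaLimits d) ≤ c) : #X ≤ c := by
  refine le_of_thetaClosure hX c hc fun E hEc hEcl hEd => ?_
  by_contra hbig
  obtain ⟨d₀, -, -, -, hd₀⟩ := exists_thetaLimits hc hEc hEcl hEd (not_le.1 hbig)
  have hYcl : IsClosed (thetaLimits d₀) := isClosed_thetaLimits d₀
  refine absurd (le_of_thetaClosure (adl_of_isClosed hX hYcl) c hc
    fun E' hE'c hE'cl hE'd => ?_) (not_le.2 hd₀)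
  by_contra hbig'
  obtain ⟨d, hinj, hdcl, hdd, hd⟩ := exists_thetaLimits hc hE'c hE'cl hE'd (not_le.1 hbig')
  exact absurd (h _ hYcl (clique_thetaLimits d₀) d hinj hdcl hdd) (not_le.2 hd)

end MP_fe99c3_gt.TD
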