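import Mathlib
import Pool.Agent.Lib.MP_fe99c3_gt.ThetaLim

/-!
Closures of small discrete cliques.
-/

universe u

namespace MP_fe99c3_gt.TD

open Set Filter Topology Cardinal

/-- the cardinality is governed by the closed cliques -/
theorem le_of_cliques {X : Type u} [TopologicalSpace X] [T2Space X]
    [FirstCountableTopology X] (hX : AlmostDiscretelyLindelof X) (c : Cardinal.{u}) (hc : 𝔠 ≤ c)
    (h : ∀ A : Set X, IsClosed A → Clique A → #A ≤ c) : #X ≤ c := by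
  refine le_of_thetaClosure hX c hc fun E hEc hEcl hEd => ?_
  by_contra hbig
  obtain ⟨d, -, -, -, hd⟩ := exists_thetaLimits hc hEc hEcl hEd (not_le.1 hbig)
  exact absurd (h _ (isClosed_thetaLimits d) (clique_thetaLimits d)) (not_le.2 hd)

/-- the criterion for all small discrete sets -/
theorem le_of_discrete {X : Type u} [TopologicalSpace X] [T2Space X] [FirstCountableTopology X]
    (hX : AlmostDiscretelyLindelof X)
    (hL : ∀ D : Set X, DiscreteTopology D → (2 : Cardinal.{u}) ^ #D ≤ 𝔠 →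
      ∀ 𝒰 : Set (Set X), (∀ U ∈ 𝒰, IsOpen U) → closure D ⊆ ⋃₀ 𝒰 →
        ∃ 𝒱 ⊆ 𝒰, (∀ d < #𝒱, (2 : Cardinal.{u}) ^ d ≤ 𝔠) ∧ closure D ⊆ ⋃₀ 𝒱) :
    #X ≤ 𝔠 := by
  classical
  have hb : ∀ x : X, ∃ B : ℕ → Set X, (∀ n, IsOpen (B n) ∧ x ∈ B n) ∧
      ∀ U ∈ 𝓝 x, ∃ n, B n ⊆ U := by
    intro x
    obtain ⟨B, hB⟩ := (nhds_basis_opens x).exists_antitone_subbasis
    refine ⟨B, fun n => ⟨(hB.1 n).2, (hB.1 n).1⟩, fun U hU => ?_⟩
    obtain ⟨n, -, hn⟩ := hB.2.toHasBasis.mem_iff.1 hU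
    exact ⟨n, hn⟩
  choose B hB1 hB2 using hb
  refine master hX (fun S hSd hS => ?_)
  have hSc : #S ≤ 𝔠 := (le_of_lt (cantor _)).trans hS
  have hcl := mk_closure_le hSc
  refine ⟨range (fun a : closure S × ℕ => B a.1 a.2), ?_, ?_, ?_⟩
  · refine mk_range_le.trans ?_
    rw [mk_prod, mk_nat, lift_aleph0, lift_uzero]
    calc #(closure S) * ℵ₀ ≤ 𝔠 * 𝔠 := mul_le_mul' hcl aleph0_le_continuum
      _ = 𝔠 := continuum_mul_self
  · rintro _ ⟨a, rfl⟩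
    exact (hB1 _ _).1
  · intro p hp _
    obtain ⟨𝒱, h1, h2, h3⟩ := hL S hSd hS
      {O | p ∉ O ∧ O ∈ range (fun a : closure S × ℕ => B a.1 a.2)}
      (by rintro _ ⟨-, a, rfl⟩; exact (hB1 _ _).1)
      (by
        intro y hy
        have hne : y ≠ p := fun h => hp (h ▸ hy)
        obtain ⟨n, hn⟩ := hB2 y {p}ᶜ (isOpen_compl_singleton.mem_nhds hne)
        exact ⟨B y n, ⟨fun h => hn h rfl, ⟨(⟨y, hy⟩, n), rfl⟩⟩, (hB1 _ _).2⟩)
    refine ⟨𝒱, fun O hO => (h1 hO).2, h2, h3, ?_⟩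
    rintro ⟨O, hO, hpO⟩
    exact (h1 hO).1 hpO

/-- the criterion for all small discrete cliques -/
theorem le_of_discrete_cliques {X : Type u} [TopologicalSpace X] [T2Space X]
    [FirstCountableTopology X] (hX : AlmostDiscretelyLindelof X)
    (hL : ∀ D : Set X, DiscreteTopology D → Clique D → (2 : Cardinal.{u}) ^ #D ≤ 𝔠 →
      ∀ 𝒰 : Set (Set X), (∀ U ∈ 𝒰, IsOpen U) → closure D ⊆ ⋃₀ 𝒰 →
        ∃ 𝒱 ⊆ 𝒰, (∀ d < #𝒱, (2 : Cardinal.{u}) ^ d ≤ 𝔠) ∧ closure D ⊆ ⋃₀ 𝒱) :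
    #X ≤ 𝔠 := by
  classical
  refine le_of_cliques hX 𝔠 le_rfl fun Y hYcl hY => ?_
  refine le_of_discrete (adl_of_isClosed hX hYcl) fun D hD hDc 𝒰 h𝒰o h𝒰c => ?_
  have hDY : ((↑) '' D : Set X) ⊆ Y := by
    rintro _ ⟨y, -, rfl⟩
    exact y.2
  obtain ⟨𝒱, h1, h2, h3⟩ := hL ((↑) '' D) (discrete_image hD)
    (fun F hF => hY F (hF.trans hDY)) (by rwa [mk_image_eq Subtype.val_injective])
    {O | IsOpen O ∧ ((↑) ⁻¹' O : Set Y) ∈ 𝒰} (fun O hO => hO.1) (by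
      intro y hy
      have hyY : y ∈ Y := (hYcl.closure_subset_iff.2 hDY) hy
      obtain ⟨U, hU, hyU⟩ := h𝒰c (closure_subtype.2 hy : (⟨y, hyY⟩ : Y) ∈ closure D)
      obtain ⟨O, hO, rfl⟩ := isOpen_induced_iff.1 (h𝒰o U hU)
      exact ⟨O, ⟨hO, hU⟩, hyU⟩)
  refine ⟨(fun O : Set X => ((↑) ⁻¹' O : Set Y)) '' 𝒱, ?_, fun d hd => h2 d ?_, ?_⟩
  · rintro _ ⟨O, hO, rfl⟩
    exact (h1 hO).2
  · exact hd.trans_le mk_image_le
  · intro y hy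
    obtain ⟨O, hO, hyO⟩ := h3 (closure_subtype.1 hy)
    exact ⟨_, ⟨O, hO, rfl⟩, hyO⟩

end MP_fe99c3_gt.TD
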