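import Mathlib

/-!
Powers of `2 ^< κ` with exponent less than the cofinality, and index sets for the closing off
argument.
-/

universe u

namespace MP_fe99c3_gt.TD

open Set Cardinal Ordinal

theorem le_two_powerlt {κ : Cardinal.{u}} : κ ≤ 2 ^< κ := by
  refine le_of_forall_lt (fun c hc => ?_)
  exact (cantor c).trans_le (le_powerlt 2 hc)

theorem exists_seg {κ : Cardinal.{u}} {c : Cardinal.{u}} (hc : c < κ) :
    ∃ k : κ.ord.ToType, #(Iio k) = c := by
  have h : c.ord < Ordinal.type (α := κ.ord.ToType) (· < ·) := by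
    rw [type_toType]
    exact ord_lt_ord.2 hc
  refine ⟨enum (α := κ.ord.ToType) (· < ·) ⟨c.ord, h⟩, ?_⟩
  have h2 := card_typein (r := ((· < ·) : κ.ord.ToType → κ.ord.ToType → Prop))
    (enum (α := κ.ord.ToType) (· < ·) ⟨c.ord, h⟩)
  rw [typein_enum, card_ord] at h2
  exact h2.symm

theorem powerlt_pow {κ : Cardinal.{u}} (hκ : ℵ₀ ≤ κ) {μ : Cardinal.{u}} (hμ : μ < κ.ord.cof)
    (hμκ : μ < κ) (hω : ℵ₀ < κ) : (2 ^< κ) ^ μ ≤ 2 ^< κ := by
  classical
  induction μ using Cardinal.inductionOn with | mk M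
  have hmk : #(κ.ord.ToType) = κ := mk_ord_toType κ
  have hseg : ∀ k : κ.ord.ToType, #(Iio k) < κ := by
    intro k
    have h := Cardinal.mk_Iio_lt k (by simp)
    rwa [hmk] at h
  have h1 : 2 ^< κ ≤ #(Σ k : κ.ord.ToType, Set (Iio k)) := by
    rw [powerlt_le]
    intro c hc
    obtain ⟨k, hk⟩ := exists_seg hc
    rw [← hk, ← mk_set]
    exact mk_le_of_injective (f := fun A : Set (Iio k) =>
      (⟨k, A⟩ : Σ k : κ.ord.ToType, Set (Iio k))) (fun A B h => by
        simpa using h)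
  have h2 : #(M → Σ k : κ.ord.ToType, Set (Iio k)) ≤
      #(Σ k : κ.ord.ToType, M → Σ j : Iio k, Set (Iio (j : κ.ord.ToType))) := by
    refine mk_le_of_surjective (f := fun g m => ⟨(g.2 m).1.1, (g.2 m).2⟩) ?_
    intro f
    have hb : ∃ k : κ.ord.ToType, ∀ m, (f m).1 < k := by
      by_contra hcon
      push Not at hcon
      have hcof : IsCofinal (range fun m => (f m).1) := by
        intro k
        obtain ⟨m, hm⟩ := hcon k
        exact ⟨_, ⟨m, rfl⟩, hm⟩
      have h3 := (Order.cof_le hcof).trans mk_range_le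
      rw [cof_toType] at h3
      exact absurd h3 (not_le.2 hμ)
    obtain ⟨k, hk⟩ := hb
    exact ⟨⟨k, fun m => ⟨⟨(f m).1, hk m⟩, (f m).2⟩⟩, rfl⟩
  have hlam : ℵ₀ ≤ 2 ^< κ := hκ.trans le_two_powerlt
  have h3 : ∀ k : κ.ord.ToType,
      #(M → Σ j : Iio k, Set (Iio (j : κ.ord.ToType))) ≤ 2 ^< κ := by
    intro k
    have hν : max (#(Iio k)) (max #M ℵ₀) < κ := max_lt (hseg k) (max_lt hμκ hω)
    have hν0 : ℵ₀ ≤ max (#(Iio k)) (max #M ℵ₀) := (le_max_right _ _).trans (le_max_right _ _)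
    have h4 : #(Σ j : Iio k, Set (Iio (j : κ.ord.ToType))) ≤
        2 ^ max (#(Iio k)) (max #M ℵ₀) := by
      rw [mk_sigma]
      calc Cardinal.sum (fun j : Iio k => #(Set (Iio (j : κ.ord.ToType))))
          ≤ Cardinal.sum (fun j : Iio k => 2 ^ max (#(Iio k)) (max #M ℵ₀)) := by
            refine Cardinal.sum_le_sum _ _ (fun j => ?_)
            rw [mk_set]
            refine power_le_power_left two_ne_zero ((mk_le_mk_of_subset ?_).trans
              (le_max_left _ _))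
            exact Iio_subset_Iio (le_of_lt j.2)
        _ = #(Iio k) * 2 ^ max (#(Iio k)) (max #M ℵ₀) := by simp
        _ ≤ 2 ^ max (#(Iio k)) (max #M ℵ₀) * 2 ^ max (#(Iio k)) (max #M ℵ₀) :=
            mul_le_mul' ((le_max_left _ _).trans (le_of_lt (cantor _))) le_rfl
        _ = 2 ^ max (#(Iio k)) (max #M ℵ₀) :=
            mul_eq_self (hν0.trans (le_of_lt (cantor _)))
    rw [mk_arrow, Cardinal.lift_id, Cardinal.lift_id]
    calc #(Σ j : Iio k, Set (Iio (j : κ.ord.ToType))) ^ #M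
        ≤ (2 ^ max (#(Iio k)) (max #M ℵ₀)) ^ #M := power_le_power_right h4
      _ = 2 ^ (max (#(Iio k)) (max #M ℵ₀) * #M) := by rw [← power_mul]
      _ ≤ 2 ^ (max (#(Iio k)) (max #M ℵ₀)) := by
          refine power_le_power_left two_ne_zero ?_
          calc max (#(Iio k)) (max #M ℵ₀) * #M
              ≤ max (#(Iio k)) (max #M ℵ₀) * max (#(Iio k)) (max #M ℵ₀) :=
                mul_le_mul' le_rfl ((le_max_left _ _).trans (le_max_right _ _))
            _ = max (#(Iio k)) (max #M ℵ₀) := mul_eq_self hν0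
      _ ≤ 2 ^< κ := le_powerlt 2 hν
  calc (2 ^< κ) ^ #M ≤ #(Σ k : κ.ord.ToType, Set (Iio k)) ^ #M := power_le_power_right h1
    _ = #(M → Σ k : κ.ord.ToType, Set (Iio k)) := by rw [mk_arrow, Cardinal.lift_id, Cardinal.lift_id]
    _ ≤ #(Σ k : κ.ord.ToType, M → Σ j : Iio k, Set (Iio (j : κ.ord.ToType))) := h2
    _ = Cardinal.sum (fun k : κ.ord.ToType =>
        #(M → Σ j : Iio k, Set (Iio (j : κ.ord.ToType)))) := by rw [mk_sigma]
    _ ≤ Cardinal.sum (fun _ : κ.ord.ToType => 2 ^< κ) := Cardinal.sum_le_sum _ _ h3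
    _ = κ * 2 ^< κ := by
        rw [sum_const, Cardinal.lift_id, Cardinal.lift_id, hmk]
    _ ≤ 2 ^< κ * 2 ^< κ := mul_le_mul' le_two_powerlt le_rfl
    _ = 2 ^< κ := mul_eq_self hlam

/-- index sets for a cardinal of uncountable cofinality -/
theorem exists_frame (κ : Cardinal.{0}) (hκ : ℵ₀ < κ.ord.cof) :
    ∃ (J I : Type) (_ : LinearOrder J) (_ : WellFoundedLT J) (ℓ : I → J),
      Nonempty J ∧ #I = κ ∧ #J ≤ κ ∧ (∀ j : J, #(Iio j) < κ.ord.cof) ∧
      (∀ j : J, #{ξ : I | ℓ ξ < j} < κ) ∧ (∀ f : ℕ → J, ∃ a, ∀ n, f n < a) := by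
  classical
  have hmk : #(κ.ord.ToType) = κ := mk_ord_toType κ
  have hseg : ∀ k : κ.ord.ToType, #(Iio k) < κ := by
    intro k
    have h := Cardinal.mk_Iio_lt k (by simp)
    rwa [hmk] at h
  obtain ⟨s, hs, hs2⟩ := exists_ord_cof_eq κ.ord.ToType
  rw [cof_toType] at hs2
  have hs3 : #s = κ.ord.cof := by
    have h := congrArg card hs2
    rwa [card_type, card_ord] at h
  have hne : Nonempty s := by
    rw [← mk_ne_zero_iff, hs3]
    exact (lt_of_le_of_lt zero_le hκ).ne'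
  -- least element of s above
  have hmin : ∀ ξ : κ.ord.ToType, ∃ j : s, ξ ≤ j ∧ ∀ i : s, ξ ≤ i → j ≤ i := by
    intro ξ
    obtain ⟨y, hy, hξy⟩ := hs ξ
    obtain ⟨m, hm, hm2⟩ := (wellFounded_lt (α := s)).has_min {j : s | ξ ≤ j} ⟨⟨y, hy⟩, hξy⟩
    exact ⟨m, hm, fun i hi => not_lt.1 (hm2 i hi)⟩
  choose ℓ hℓ1 hℓ2 using hmin
  refine ⟨s, κ.ord.ToType, inferInstance, inferInstance, ℓ, hne, hmk, ?_, ?_, ?_, ?_⟩
  · exact (mk_set_le s).trans (le_of_eq hmk)
  · intro j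
    have h := Cardinal.mk_Iio_lt j (by rw [hs3, hs2])
    rwa [hs3] at h
  · intro j
    refine lt_of_le_of_lt (mk_le_mk_of_subset ?_) (hseg (j : κ.ord.ToType))
    intro ξ hξ
    exact lt_of_le_of_lt (hℓ1 ξ) hξ
  · intro f
    by_contra hcon
    push Not at hcon
    have hcof : IsCofinal (range fun n => ((f n : s) : κ.ord.ToType)) := by
      intro k
      obtain ⟨y, hy, hky⟩ := hs k
      obtain ⟨n, hn⟩ := hcon ⟨y, hy⟩
      exact ⟨_, ⟨n, rfl⟩, hky.trans hn⟩
    have h3 := Order.cof_le hcof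
    rw [cof_toType] at h3
    have h4 : #(range fun n => ((f n : s) : κ.ord.ToType)) ≤ ℵ₀ := by
      rw [le_aleph0_iff_set_countable]
      exact countable_range _
    exact absurd (h3.trans h4) (not_le.2 hκ)

end MP_fe99c3_gt.TD
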